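import Mathlib
import Pool.Agent.R276.FPc

/-!
# MP_fdacb0_an: a `p`-Banach space which is its own free `p`-space

`X` is the completion of the direct limit of the iterated free spaces
`V 0 = F_p(ℕ)`, `V (n + 1) = F_p(V n)`.
-/

set_option autoImplicit false

namespace Pool.Agent.Results.MP_fdacb0_an.SelfFree

open Pool.Agent.R276.FP
open Pool.Agent.H621R3.LF (PBanach)

/-- For every `0 < p ≤ 1` there is an infinite-dimensional `p`-Banach space `X` such that the free
`p`-space over `X` (with the `p`-metric given by its `p`-norm) exists and is linearly isometric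
to `X`. The norms are the `p`-th powers of the `p`-norms. -/
theorem result (p : ℝ) (hp : 0 < p) (hp1 : p ≤ 1) :
    ∃ (X : Type) (_ : NormedAddCommGroup X) (_ : Module ℝ X),
      PBanach p X ∧ ¬ FiniteDimensional ℝ X ∧
      (∃ (F : Type) (_ : NormedAddCommGroup F) (_ : Module ℝ F) (δ : X → F),
        IsFree p (0 : X) δ) ∧
      ∀ (F : Type) [NormedAddCommGroup F] [Module ℝ F] (δ : X → F), IsFree p (0 : X) δ →
        ∃ e : F ≃ₗ[ℝ] X, ∀ v, ‖e v‖ = ‖v‖ := by
  refine ⟨X hp hp1, inferInstance, inferInstance, inferInstance, not_fd hp hp1,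
    ⟨X hp hp1, inferInstance, inferInstance, del hp hp1, isFree_X hp hp1⟩, ?_⟩
  intro F _ _ δ hF
  obtain ⟨e, _, he⟩ := free_iso hF (isFree_X hp hp1)
  exact ⟨e, he⟩

end Pool.Agent.Results.MP_fdacb0_an.SelfFree
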